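import Pool.Agent.H37.DEN.Targets

/-!
# Exponents divisible by `μ` (rows DFM, DFE, DFP) and coprimality (row COP)
-/

set_option autoImplicit false

open MvPolynomial Filter
open Pool.Agent.H18.HIT Pool.Agent.H8.TD Pool.Agent.H37.DEN

namespace Pool.Agent.H54.DEN

section laurent

variable {k : Type} [Field k]

theorem dfm_ex {x y : LaurentSeries k} {n : ℤ} (h : (x * y).coeff n ≠ 0) :
    ∃ i j : ℤ, i + j = n ∧ x.coeff i ≠ 0 ∧ y.coeff j ≠ 0 := by
  rw [HahnSeries.coeff_mul] at h
  obtain ⟨⟨i, j⟩, hij, h1⟩ := Finset.exists_ne_zero_of_sum_ne_zero h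
  rw [Finset.mem_antidiagonal] at hij
  exact ⟨i, j, hij.2.2, hij.1, hij.2.1⟩

theorem dfm_mul {μ : ℕ} {x y : LaurentSeries k} {B : ℤ} (hx : Df μ x (x.order + B))
    (hy : Df μ y (y.order + B)) : Df μ (x * y) (x.order + y.order + B) := by
  intro n hn hμ
  by_contra hcon
  obtain ⟨i, j, hij, hi, hj⟩ := dfm_ex hcon
  have h1 : x.order ≤ i := HahnSeries.order_le_of_coeff_ne_zero hi
  have h2 : y.order ≤ j := HahnSeries.order_le_of_coeff_ne_zero hj
  have h3 : (μ : ℤ) ∣ i := by
    by_contra hc
    exact hi (hx i (by omega) hc)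
  have h4 : (μ : ℤ) ∣ j := by
    by_contra hc
    exact hj (hy j (by omega) hc)
  apply hμ
  rw [← hij]
  exact dvd_add h3 h4

theorem pf_DFM : T_DFM := by
  intro k _ μ x y B hμ hB hx0 hy0 hx hy hDx hDy
  refine ⟨dfm_mul hDx hDy, ?_⟩
  have hz0 : x⁻¹ ≠ 0 := inv_ne_zero hx0
  have hxz : x * x⁻¹ = 1 := mul_inv_cancel₀ hx0
  have hord : (x⁻¹).order = -x.order := by
    have h1 := HahnSeries.order_mul hx0 hz0
    rw [hxz, HahnSeries.order_one] at h1
    omega
  intro n hn hμn
  by_contra hcon
  obtain ⟨m, ⟨hm1, hm2, hm3⟩, hmin⟩ := Int.exists_least_of_bdd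
    (P := fun n : ℤ => n < -x.order + B ∧ ¬ (μ : ℤ) ∣ n ∧ (x⁻¹).coeff n ≠ 0)
    ⟨-x.order, fun z hz => by
      rw [← hord]
      exact HahnSeries.order_le_of_coeff_ne_zero hz.2.2⟩ ⟨n, hn, hμn, hcon⟩
  have hne : m + x.order ≠ 0 := by
    intro h0
    apply hm2
    rw [show m = -x.order by omega]
    exact hx.neg_right
  have h1 : (x * x⁻¹).coeff (m + x.order) = 0 := by
    rw [hxz, HahnSeries.coeff_one, if_neg hne]
  have h2 : (x * x⁻¹).coeff (m + x.order) = x.coeff x.order * (x⁻¹).coeff m := by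
    rw [HahnSeries.coeff_mul]
    apply Finset.sum_eq_single (x.order, m)
    · rintro ⟨i, j⟩ hij hne'
      exfalso
      rw [Finset.mem_antidiagonal] at hij
      obtain ⟨hi, hj, hij⟩ := hij
      have hi' : x.coeff i ≠ 0 := hi
      have hj' : (x⁻¹).coeff j ≠ 0 := hj
      have h3 : x.order ≤ i := HahnSeries.order_le_of_coeff_ne_zero hi'
      have h4 : -x.order ≤ j := by
        rw [← hord]
        exact HahnSeries.order_le_of_coeff_ne_zero hj'
      have h5 : i ≠ x.order := by
        intro h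
        apply hne'
        rw [h, show j = m by simp only at hij; omega]
      simp only at hij
      have h6 : (μ : ℤ) ∣ j := by
        by_contra hc
        have := hmin j ⟨by omega, hc, hj'⟩
        omega
      have h7 : ¬ (μ : ℤ) ∣ i := by
        intro hc
        apply hm2
        have h8 : m = i + j - x.order := by omega
        rw [h8]
        exact dvd_sub (dvd_add hc h6) hx
      exact hi' (hDx i (by omega) h7)
    · intro hnot
      by_contra hcon'
      apply hnot
      rw [Finset.mem_antidiagonal]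
      refine ⟨left_ne_zero_of_mul hcon', right_ne_zero_of_mul hcon', ?_⟩
      simp only
      omega
  rw [h1] at h2
  have h3 : x.coeff x.order ≠ 0 := by
    rw [← HahnSeries.leadingCoeff_eq]
    exact HahnSeries.leadingCoeff_ne_zero.2 hx0
  rcases mul_eq_zero.1 h2.symm with h | h
  · exact h3 h
  · exact hm3 h

theorem pf_DFP : T_DFP := by
  intro k _ μ e x y b he hcop hpow
  have hdiv : ∀ n : ℤ, (μ : ℤ) ∣ (e : ℤ) * n → (μ : ℤ) ∣ n := by
    intro n h
    exact (Nat.isCoprime_iff_coprime.2 hcop).dvd_of_dvd_mul_left h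
  have he0 : (0 : ℤ) < e := by exact_mod_cast he
  constructor
  · intro h n hn hμ
    rw [← (hpow n).1]
    exact h _ (mul_lt_mul_of_pos_left hn he0) fun hc => hμ (hdiv n hc)
  · intro h n hn hμ
    by_cases hen : (e : ℤ) ∣ n
    · obtain ⟨n', rfl⟩ := hen
      rw [(hpow n').1]
      exact h n' (lt_of_mul_lt_mul_left hn he0.le) fun hc => hμ (hc.mul_left _)
    · exact (hpow n).2 hen

theorem pf_DFE : T_DFE := by
  intro k _ _ μ e y D he hD hy0 hμo hDy hDe n hn hμ
  obtain ⟨o, ho⟩ : ∃ o, o = y.order := ⟨_, rfl⟩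
  by_cases hn' : n < y.order + D
  · exact hDy n hn' hμ
  have hn0 : n = y.order + D := by omega
  have hD1 : 1 ≤ D := by
    rcases hD.eq_or_lt with h | h
    · exfalso
      apply hμ
      rw [hn0, ← h, add_zero]
      exact hμo
    · exact h
  have hlead : y.coeff y.order ≠ 0 := by
    rw [← HahnSeries.leadingCoeff_eq]
    exact HahnSeries.leadingCoeff_ne_zero.2 hy0
  -- the powers
  have hord : ∀ a : ℕ, (y ^ a).order = a * y.order := by
    intro a
    rw [HahnSeries.order_pow, nsmul_eq_mul]
  have key : ∀ a : ℕ, Df μ (y ^ (a + 1)) ((a + 1 : ℕ) * y.order + D) ∧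
      (y ^ (a + 1)).coeff ((a + 1 : ℕ) * y.order) = y.coeff y.order ^ (a + 1) ∧
      (y ^ (a + 1)).coeff ((a + 1 : ℕ) * y.order + D) =
        (a + 1 : ℕ) * y.coeff y.order ^ a * y.coeff n := by
    intro a
    induction a with
    | zero =>
      simp only [zero_add, pow_one, Nat.cast_one, one_mul, pow_zero, mul_one]
      exact ⟨hDy, trivial, by rw [hn0]⟩
    | succ a ih =>
      obtain ⟨i1, i2, i3⟩ := ih
      have hoa := hord (a + 1)
      rw [pow_succ y (a + 1)]
      have hsum : ((a + 1 + 1 : ℕ) : ℤ) * y.order = ((a + 1 : ℕ) : ℤ) * y.order + y.order := by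
        push_cast
        ring
      rw [hsum]
      refine ⟨?_, ?_, ?_⟩
      · rw [← hoa] at i1 ⊢
        exact dfm_mul i1 hDy
      · have h1 := HahnSeries.coeff_mul_order_add_order (y ^ (a + 1)) y
        rw [hoa, HahnSeries.leadingCoeff_eq, HahnSeries.leadingCoeff_eq, hoa, i2] at h1
        rw [h1, ← pow_succ]
      · rw [HahnSeries.coeff_mul]
        rw [Finset.sum_eq_add (((a + 1 : ℕ) : ℤ) * y.order, n)
          (((a + 1 : ℕ) : ℤ) * y.order + D, y.order)]
        · simp only
          rw [i2, i3]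
          push_cast
          ring
        · intro h
          have := congrArg Prod.fst h
          simp only at this
          omega
        · rintro ⟨i, j⟩ hij ⟨hne1, hne2⟩
          exfalso
          rw [Finset.mem_antidiagonal] at hij
          obtain ⟨hi, hj, hij⟩ := hij
          have hi' : (y ^ (a + 1)).coeff i ≠ 0 := hi
          have hj' : y.coeff j ≠ 0 := hj
          simp only at hij
          have h3 : ((a + 1 : ℕ) : ℤ) * y.order ≤ i := by
            rw [← hoa]
            exact HahnSeries.order_le_of_coeff_ne_zero hi'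
          have h4 : y.order ≤ j := HahnSeries.order_le_of_coeff_ne_zero hj'
          have h5 : i ≠ ((a + 1 : ℕ) : ℤ) * y.order := by
            intro h
            apply hne1
            rw [h, show j = n by omega]
          have h6 : j ≠ y.order := by
            intro h
            apply hne2
            rw [h, show i = ((a + 1 : ℕ) : ℤ) * y.order + D by omega]
          have h7 : (μ : ℤ) ∣ i := by
            by_contra hc
            exact hi' (i1 i (by omega) hc)
          have h8 : (μ : ℤ) ∣ j := by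
            by_contra hc
            exact hj' (hDy j (by omega) hc)
          apply hμ
          have h9 : n = i + j - ((a + 1 : ℕ) : ℤ) * y.order := by omega
          rw [h9]
          exact dvd_sub (dvd_add h7 h8) (hμo.mul_left _)
        · intro hnot
          by_contra hcon
          apply hnot
          rw [Finset.mem_antidiagonal]
          refine ⟨left_ne_zero_of_mul hcon, right_ne_zero_of_mul hcon, ?_⟩
          simp only
          omega
        · intro hnot
          by_contra hcon
          apply hnot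
          rw [Finset.mem_antidiagonal]
          refine ⟨left_ne_zero_of_mul hcon, right_ne_zero_of_mul hcon, ?_⟩
          simp only
          omega
  obtain ⟨a, rfl⟩ : ∃ a, e = a + 1 := ⟨e - 1, by omega⟩
  obtain ⟨-, -, h3⟩ := key a
  have h4 := hDe ((a + 1 : ℕ) * y.order + D) (by omega) (by
    intro hc
    apply hμ
    have h9 : n = (((a + 1 : ℕ) : ℤ) * y.order + D) -
      ((a + 1 : ℕ) : ℤ) * y.order + y.order := by omega
    rw [h9]
    exact dvd_add (dvd_sub hc (hμo.mul_left _)) hμo)
  rw [h3] at h4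
  have h5 : ((a + 1 : ℕ) : k) ≠ 0 := Nat.cast_ne_zero.2 (Nat.succ_ne_zero a)
  have h6 : ((a + 1 : ℕ) : k) * y.coeff y.order ^ a ≠ 0 := mul_ne_zero h5 (pow_ne_zero _ hlead)
  exact (mul_eq_zero.1 h4).resolve_left h6

end laurent

theorem pf_COP : T_COP := by
  intro S U e μ a he h
  by_contra hcon
  rw [← Ultrafilter.eventually_not] at hcon
  have h1 : ∀ᶠ s in (U : Filter S), ∃ p ∈ (e.primeFactors : Set ℕ), p ∣ μ s := by
    filter_upwards [hcon] with s hs
    obtain ⟨p, hp, hp1, hp2⟩ := Nat.Prime.not_coprime_iff_dvd.1 hs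
    exact ⟨p, Finset.mem_coe.2 (Nat.mem_primeFactors.2 ⟨hp, hp2, by omega⟩), hp1⟩
  rw [Ultrafilter.eventually_exists_mem_iff (Finset.finite_toSet _)] at h1
  obtain ⟨p, hp, h2⟩ := h1
  obtain ⟨hpp, hpe, -⟩ := Nat.mem_primeFactors.1 (Finset.mem_coe.1 hp)
  have h3 := h ((e / p : ℕ) : ℤ)
    (a • (((fun s => ((μ s / p : ℕ) : ℤ)) : S → ℤ) : Germ (U : Filter S) ℤ)) (by
      show ((fun s => ((e / p : ℕ) : ℤ) • (a • (μ s : ℤ)) : S → ℤ) : Germ (U : Filter S) ℤ) =
        ((fun s => (e : ℤ) • (a • ((μ s / p : ℕ) : ℤ)) : S → ℤ) : Germ (U : Filter S) ℤ)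
      apply Germ.coe_eq.2
      filter_upwards [h2] with s hs
      obtain ⟨c, hc⟩ := hs
      obtain ⟨d, hd⟩ := hpe
      have hp0 : 0 < p := hpp.pos
      rw [hc, hd, Nat.mul_div_cancel_left _ hp0, Nat.mul_div_cancel_left _ hp0]
      simp only [smul_eq_mul]
      push_cast
      ring)
  obtain ⟨d, hd⟩ := hpe
  have hp0 : 0 < p := hpp.pos
  rw [hd, Nat.mul_div_cancel_left _ hp0] at h3
  have h4 : p * d ∣ d := by exact_mod_cast h3
  have hd0 : 0 < d := by
    rcases Nat.eq_zero_or_pos d with h5 | h5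
    · rw [h5, mul_zero] at hd
      omega
    · exact h5
  have h5 := Nat.le_of_dvd hd0 h4
  have h6 := hpp.two_le
  nlinarith

end Pool.Agent.H54.DEN
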